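import Mathlib

set_option autoImplicit false

/-!
Palette index of multigraphs (MP_93b131_co): definitions.
A finite simple bipartite graph with sides `X` and `Y` is a `Finset (X × Y)`.
-/

namespace Pool.Agent.helper87.PI

open Finset

section graph

variable {X Y : Type} [DecidableEq X] [DecidableEq Y]

/-- degree of a left vertex -/
def dX (E : Finset (X × Y)) (x : X) : ℕ := (E.filter (fun e => e.1 = x)).card

/-- degree of a right vertex -/
def dY (E : Finset (X × Y)) (y : Y) : ℕ := (E.filter (fun e => e.2 = y)).card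

/-- `c` is a proper edge colouring of `E` -/
def Proper (E : Finset (X × Y)) (c : X × Y → ℕ) : Prop :=
  ∀ e ∈ E, ∀ f ∈ E, e ≠ f → (e.1 = f.1 ∨ e.2 = f.2) → c e ≠ c f

/-- palette of a left vertex -/
def palX (E : Finset (X × Y)) (c : X × Y → ℕ) (x : X) : Finset ℕ :=
  (E.filter (fun e => e.1 = x)).image c

/-- palette of a right vertex -/
def palY (E : Finset (X × Y)) (c : X × Y → ℕ) (y : Y) : Finset ℕ :=
  (E.filter (fun e => e.2 = y)).image c

/-- `E` has a proper edge colouring with at most `N` palettes (empty palette included) -/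
def Good [Fintype X] [Fintype Y] (E : Finset (X × Y)) (N : ℕ) : Prop :=
  ∃ c : X × Y → ℕ, Proper E c ∧
    ((univ.image (palX E c)) ∪ (univ.image (palY E c))).card ≤ N

/-- `∑_{x ~ y} 1 / deg x` -/
noncomputable def ms (E : Finset (X × Y)) (y : Y) : ℝ :=
  ∑ e ∈ E.filter (fun e => e.2 = y), (1 : ℝ) / (dX E e.1 : ℝ)

end graph

section field

variable {X Y : Type}

/-- supply arriving at `x` from the active set `a` -/
noncomputable def S (φ : Y → X → ℝ) (a : Finset Y) (x : X) : ℝ := ∑ y ∈ a, φ y x

/-- boundary of `U` seen by the active set `a` -/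
noncomputable def bd (φ : Y → X → ℝ) (a : Finset Y) (U : Finset X) : ℝ :=
  ∑ y ∈ a, (∑ x ∈ U, φ y x) * (1 - ∑ x ∈ U, φ y x)

/-- the invariant of the noise compensation: the supply is `μ` + a routable field + a small noise -/
structure St (φ : Y → X → ℝ) (a : Finset Y) (f A B μ ε : ℝ) : Prop where
  ex : ∃ n ρ : X → ℝ, (∀ x, S φ a x = μ + ρ x + n x) ∧ (∀ x, |n x| ≤ f) ∧
    ∀ U : Finset X, |∑ x ∈ U, ρ x| ≤ A * bd φ a U + B * (U.card : ℝ)
  near : ∀ x, |S φ a x - 1| ≤ ε

end field

section prob

/-- weight of a configuration in a finite product space -/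
noncomputable def wt {ι α : Type} [Fintype ι] (w : ι → α → ℝ) (ω : ι → α) : ℝ := ∏ i, w i (ω i)

end prob

end Pool.Agent.helper87.PI
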