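import Mathlib
import Pool.Agent.helper87.PI.Defs
import Pool.Agent.helper6.PI.C8
import Pool.Agent.helper29.PI.D1
import Pool.Agent.helper29.PI.D3
import Pool.Agent.helper92.PI.D5

set_option autoImplicit false

namespace Pool.Agent.helper87.PI

open Finset

lemma D6_exp (Δ J : ℕ) (hΔJ : Δ < 2 ^ J) (hJ3 : 3 ≤ J) :
    8 * ((Δ : ℝ) ^ 3 + 1) ≤ Real.exp (4 * (J : ℝ)) := by
  have h1 : Δ ^ 3 + 1 ≤ 2 ^ (3 * J) := by
    have : Δ ^ 3 < (2 ^ J) ^ 3 := Nat.pow_lt_pow_left hΔJ (by norm_num)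
    rw [← pow_mul, mul_comm J 3] at this
    omega
  have h2 : (8 : ℕ) ≤ 2 ^ J := by
    calc 8 = 2 ^ 3 := by norm_num
      _ ≤ 2 ^ J := Nat.pow_le_pow_right (by norm_num) hJ3
  have h3 : 8 * (Δ ^ 3 + 1) ≤ 2 ^ (4 * J) := by
    calc 8 * (Δ ^ 3 + 1) ≤ 2 ^ J * 2 ^ (3 * J) := Nat.mul_le_mul h2 h1
      _ = 2 ^ (4 * J) := by rw [← pow_add]; congr 1; ring
  have h4 : (2 : ℝ) ^ (4 * J) ≤ Real.exp (4 * (J : ℝ)) := by
    have : Real.exp (4 * (J : ℝ)) = (Real.exp 1) ^ (4 * J) := by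
      rw [← Real.exp_nat_mul]; congr 1; push_cast; ring
    rw [this]
    refine pow_le_pow_left₀ (by norm_num) ?_ _
    have := Real.add_one_le_exp (1 : ℝ)
    linarith
  calc 8 * ((Δ : ℝ) ^ 3 + 1) = ((8 * (Δ ^ 3 + 1) : ℕ) : ℝ) := by push_cast; ring
    _ ≤ ((2 ^ (4 * J) : ℕ) : ℝ) := by exact_mod_cast h3
    _ = (2 : ℝ) ^ (4 * J) := by push_cast; ring
    _ ≤ _ := h4

lemma D6_J (Δ J : ℕ) (hΔJ : Δ < 2 ^ J) (h64 : 64 * J ≤ Δ) (hJ : 1 ≤ J) : 10 ≤ J := by
  by_contra h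
  push Not at h
  interval_cases J <;> omega

/-- the numerical content of the palette count -/
lemma D6_count (Δ J R q : ℕ) (hJ : 1 ≤ J) (hΔJ : Δ < 2 ^ J) (hR : R ≤ Δ) (hq : q + 1 ≤ Δ) :
    (R * (q + 1) ^ (6400 * J) + 2) ^ (64 * J) ≤ 2 ^ (500000 * J ^ 3) := by
  have h1 : R * (q + 1) ^ (6400 * J) ≤ 2 ^ (J + 6400 * J ^ 2) := by
    calc R * (q + 1) ^ (6400 * J) ≤ 2 ^ J * (2 ^ J) ^ (6400 * J) :=
          Nat.mul_le_mul (by omega) (Nat.pow_le_pow_left (by omega) _)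
      _ = 2 ^ (J + 6400 * J ^ 2) := by
          rw [← pow_mul, ← pow_add]; congr 1; ring
  have h2 : (2 : ℕ) ≤ 2 ^ (J + 6400 * J ^ 2) := by
    calc (2 : ℕ) = 2 ^ 1 := by norm_num
      _ ≤ _ := Nat.pow_le_pow_right (by norm_num) (by omega)
  have h3 : R * (q + 1) ^ (6400 * J) + 2 ≤ 2 ^ (J + 6400 * J ^ 2 + 1) := by
    rw [pow_succ]; omega
  calc (R * (q + 1) ^ (6400 * J) + 2) ^ (64 * J)
      ≤ (2 ^ (J + 6400 * J ^ 2 + 1)) ^ (64 * J) := Nat.pow_le_pow_left h3 _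
    _ = 2 ^ ((J + 6400 * J ^ 2 + 1) * (64 * J)) := by rw [← pow_mul]
    _ ≤ 2 ^ (500000 * J ^ 3) := by
        refine Nat.pow_le_pow_right (by norm_num) ?_
        nlinarith [Nat.mul_le_mul hJ hJ, Nat.mul_le_mul (Nat.mul_le_mul hJ hJ) hJ,
          Nat.pow_le_pow_left hJ 2, Nat.pow_le_pow_left hJ 3,
          Nat.mul_le_mul (Nat.pow_le_pow_left hJ 2) (le_refl J),
          Nat.mul_le_mul hJ (le_refl (J^2)), Nat.mul_le_mul hJ (le_refl J)]

theorem cll {X Y : Type} [Fintype X] [Fintype Y] [DecidableEq X] [DecidableEq Y]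
    (E : Finset (X × Y)) (Δ θ K J : ℕ) (hJ : 1 ≤ J) (hΔJ : Δ < 2 ^ J) (h64 : 64 * J ≤ Δ)
    (hθ : Δ ≤ 8 * J * θ)
    (hx : ∀ x, dX E x = 0 ∨ (θ ≤ dX E x ∧ dX E x ≤ Δ))
    (hy : ∀ y, dY E y = 0 ∨ (K ≤ dY E y ∧ dY E y ≤ 2 * K)) (hyΔ : ∀ y, dY E y ≤ Δ)
    (hK : 5000000000 * J ^ 3 ≤ K) :
    ∃ H ⊆ E, Good H (2 ^ (500000 * J ^ 3)) ∧
      ∀ x, dX E x ≠ 0 → Δ ≤ 2097152 * J ^ 3 * dX H x := by
  by_cases hE : E = ∅
  · subst hE
    refine ⟨∅, le_refl _, good_mono good_empty Nat.one_le_two_pow, fun x hx0 => ?_⟩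
    exact absurd (by simp [dX]) hx0
  obtain ⟨⟨x0, y0⟩, h0⟩ := Finset.nonempty_iff_ne_empty.mpr hE
  have hdx0 : dX E x0 ≠ 0 := by
    unfold dX
    exact Finset.card_ne_zero_of_mem (Finset.mem_filter.mpr ⟨h0, rfl⟩)
  have hdy0 : dY E y0 ≠ 0 := by
    unfold dY
    exact Finset.card_ne_zero_of_mem (Finset.mem_filter.mpr ⟨h0, rfl⟩)
  have hθΔ : θ ≤ Δ := by
    rcases hx x0 with h | h
    · exact absurd h hdx0
    · exact h.1.trans h.2
  have hKΔ : K ≤ Δ := by
    rcases hy y0 with h | h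
    · exact absurd h hdy0
    · exact h.1.trans (hyΔ y0)
  have hJ10 : 10 ≤ J := D6_J Δ J hΔJ h64 hJ
  have hΔ0 : 0 < Δ := by omega
  have hθ0 : 0 < θ := by
    rcases Nat.eq_zero_or_pos θ with h | h
    · subst h; simp at hθ; omega
    · exact h
  have hJ3 : 1 ≤ J ^ 3 := Nat.one_le_pow _ _ (by omega)
  have hK0 : 0 < K := by omega
  -- real versions
  have rJ : (10 : ℝ) ≤ J := by exact_mod_cast hJ10
  have rΔ0 : (0 : ℝ) < Δ := by exact_mod_cast hΔ0
  have rθ0 : (0 : ℝ) < θ := by exact_mod_cast hθ0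
  have rK0 : (0 : ℝ) < K := by exact_mod_cast hK0
  have rθ : (Δ : ℝ) ≤ 8 * J * θ := by exact_mod_cast hθ
  have rK : 5000000000 * (J : ℝ) ^ 3 ≤ K := by exact_mod_cast hK
  have rθΔ : (θ : ℝ) ≤ Δ := by exact_mod_cast hθΔ
  have rKΔ : (K : ℝ) ≤ Δ := by exact_mod_cast hKΔ
  have rJ0 : (0 : ℝ) < J := by linarith
  have hΛ := D6_exp Δ J hΔJ (by omega)
  obtain ⟨τ, hτ⟩ := types E Δ θ K (64 * J) (4 * (J : ℝ)) hθ0 (by omega) hK0 hx hy hyΔ h64
    (by positivity)
    (by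
      push_cast
      have h1 : (16 * (4 * (J : ℝ)) * (64 * J) * Δ) ≤ 16 * (4 * (J : ℝ)) * (64 * J) * (8 * J * θ) :=
        mul_le_mul_of_nonneg_left rθ (by positivity)
      have h2 : 32768 * (J : ℝ) ^ 3 ≤ K := by nlinarith [pow_pos rJ0 3]
      have h3 : 32768 * (J : ℝ) ^ 3 * θ ≤ K * θ := mul_le_mul_of_nonneg_right h2 rθ0.le
      nlinarith)
    hΛ
  set R : ℕ := θ / (64 * K) + 1 with hRdef
  set q : ℕ := K / (2048 * J ^ 2) with hqdef
  have hRΔ : R ≤ Δ := by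
    have : θ / (64 * K) ≤ θ / 64 := Nat.div_le_div_left (by omega) (by norm_num)
    omega
  have hq1 : q + 1 ≤ Δ := by
    have : K / (2048 * J ^ 2) ≤ K / 2 := Nat.div_le_div_left (by nlinarith [Nat.pow_le_pow_left hJ 2]) (by norm_num)
    omega
  -- real estimates for R and q
  have rR1 : (R : ℝ) ≤ θ / (64 * K) + 1 := by
    rw [hRdef]; push_cast
    have := @Nat.cast_div_le ℝ _ _ _ θ (64 * K)
    push_cast at this
    linarith
  have rR2 : (θ : ℝ) / (64 * K) ≤ R := by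
    rw [hRdef]
    have := Nat.lt_floor_add_one ((θ : ℝ) / ((64 * K : ℕ) : ℝ))
    rw [Nat.floor_div_natCast, Nat.floor_natCast] at this
    push_cast at this ⊢
    linarith
  have rq1 : (q : ℝ) ≤ K / (2048 * J ^ 2) := by
    rw [hqdef]
    have := @Nat.cast_div_le ℝ _ _ _ K (2048 * J ^ 2)
    push_cast at this
    exact this
  have rq2 : (K : ℝ) / (4096 * J ^ 2) ≤ q := by
    have h1 := Nat.lt_floor_add_one ((K : ℝ) / ((2048 * J ^ 2 : ℕ) : ℝ))
    rw [Nat.floor_div_natCast, Nat.floor_natCast] at h1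
    push_cast at h1
    have h2 : (1 : ℝ) ≤ K / (4096 * J ^ 2) := by
      rw [le_div_iff₀ (by positivity)]
      nlinarith [pow_pos rJ0 2, pow_pos rJ0 3]
    have h3 : (K : ℝ) / (2048 * J ^ 2) = 2 * (K / (4096 * J ^ 2)) := by
      field_simp; ring
    rw [hqdef]
    push_cast
    linarith
  have hblock : ∀ j : Fin (64 * J), ∃ (H : Finset (X × Y)) (t : Y → Option (Fin R)),
      H ⊆ E.filter (fun e => τ e.1 = j) ∧ (∀ e ∈ H, t e.2 ≠ none) ∧
      (∀ (x : X), dX (E.filter (fun e => τ e.1 = j)) x ≠ 0 → ∀ (i : Fin R),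
        (H.filter (fun e => e.1 = x ∧ t e.2 = some i)).card = q) ∧
      ∀ y, dY H y = 0 ∨ (q - 6400 * J ≤ dY H y ∧ dY H y ≤ q) := by
    intro j
    have hdx : ∀ x, dX (E.filter (fun e => τ e.1 = j)) x = if τ x = j then dX E x else 0 := by
      intro x
      unfold dX
      split_ifs with h
      · congr 1
        ext e
        simp only [Finset.mem_filter]
        constructor
        · rintro ⟨⟨h1, _⟩, h3⟩; exact ⟨h1, h3⟩
        · rintro ⟨h1, h3⟩; exact ⟨⟨h1, by rw [h3]; exact h⟩, h3⟩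
      · rw [Finset.card_eq_zero, Finset.filter_eq_empty_iff]
        intro e he h3
        rw [Finset.mem_filter] at he
        exact h (by rw [← h3]; exact he.2)
    have hdyle : ∀ y, dY (E.filter (fun e => τ e.1 = j)) y ≤ dY E y := by
      intro y
      unfold dY
      exact Finset.card_le_card (Finset.filter_subset_filter _ (Finset.filter_subset _ _))
    refine block (E.filter (fun e => τ e.1 = j)) Δ θ R q (6400 * J) ((K : ℝ) / (128 * J * Δ))
      (4 * (J : ℝ)) ?_ hθ0 (fun y => (hdyle y).trans (hyΔ y)) hRΔ (by positivity) ?_ (by positivity)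
      hΛ ?_ ?_ ?_
    · intro x
      rw [hdx]
      split_ifs
      · exact hx x
      · left; rfl
    · intro y hy0
      have hy1 : dY E y ≠ 0 := fun h => hy0 (Nat.le_zero.mp (h ▸ hdyle y))
      obtain ⟨h1, h2⟩ := hτ j y hy1
      constructor
      · refine le_trans (le_of_eq ?_) h1
        push_cast; ring
      · have h3 : 2 * (R : ℝ) * ms (E.filter (fun e => τ e.1 = j)) y ≤
            2 * (θ / (64 * K) + 1) * (3 * (K : ℝ) / ((64 * J : ℕ) * θ)) := by
          have hms : 0 ≤ ms (E.filter (fun e => τ e.1 = j)) y := by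
            unfold ms
            exact Finset.sum_nonneg (fun e _ => by positivity)
          have : 2 * (R : ℝ) ≤ 2 * (θ / (64 * K) + 1) := by linarith
          exact mul_le_mul this h2 hms (by positivity)
        refine h3.trans ?_
        have e1 : 2 * ((θ : ℝ) / (64 * K) + 1) * (3 * (K : ℝ) / ((64 * J : ℕ) * θ)) =
            6 / (4096 * J) + 6 * K / (64 * J * θ) := by
          push_cast; field_simp; ring
        rw [e1]
        have e2 : 6 * (K : ℝ) / (64 * J * θ) ≤ 3 / 4 := by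
          rw [div_le_iff₀ (by positivity)]
          nlinarith
        have e3 : (6 : ℝ) / (4096 * J) ≤ 1 / 4 := by
          rw [div_le_iff₀ (by positivity)]
          nlinarith
        linarith
    · -- 1000000 * Λ ≤ θ * mlo
      have h1 : (K : ℝ) / (1024 * J ^ 2) ≤ θ * (K / (128 * J * Δ)) := by
        rw [div_le_iff₀ (by positivity)]
        have : (θ : ℝ) * (K / (128 * J * Δ)) * (1024 * J ^ 2) = K * ((8 * J * θ) / Δ) := by
          field_simp; ring
        rw [this]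
        have : (1 : ℝ) ≤ (8 * J * θ) / Δ := by
          rw [le_div_iff₀ rΔ0]; linarith
        nlinarith
      refine le_trans ?_ h1
      rw [le_div_iff₀ (by positivity)]
      nlinarith [pow_pos rJ0 3]
    · have h1 : (K : ℝ) / (1024 * J ^ 2) ≤ θ * (K / (128 * J * Δ)) := by
        rw [div_le_iff₀ (by positivity)]
        have : (θ : ℝ) * (K / (128 * J * Δ)) * (1024 * J ^ 2) = K * ((8 * J * θ) / Δ) := by
          field_simp; ring
        rw [this]
        have : (1 : ℝ) ≤ (8 * J * θ) / Δ := by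
          rw [le_div_iff₀ rΔ0]; linarith
        nlinarith
      refine le_trans ?_ h1
      have h3 : (K : ℝ) / (1024 * J ^ 2) = 2 * (K / (2048 * J ^ 2)) := by
        field_simp; ring
      rw [h3]
      linarith
    · push_cast; linarith
  choose H t hH ht hHx hHy using hblock
  have hcol : ∀ j, Good (H j) (R * (q + 1) ^ (6400 * J) + 2) ∧
      ∀ x, dX (E.filter (fun e => τ e.1 = j)) x ≠ 0 → dX (H j) x = R * q := fun j =>
    colr (E.filter (fun e => τ e.1 = j)) (H j) R q (6400 * J) (t j) (hH j) (ht j) (hHx j) (hHy j)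
  refine ⟨univ.biUnion H, ?_, ?_, ?_⟩
  · intro e he
    rw [Finset.mem_biUnion] at he
    obtain ⟨j, _, hj⟩ := he
    exact (Finset.mem_filter.mp (hH j hj)).1
  · refine good_mono (good_biUnion H _ (fun j => (hcol j).1) ?_) (D6_count Δ J R q hJ hΔJ hRΔ hq1)
    intro i j hij
    rw [Finset.disjoint_left]
    intro e h1 h2
    have := (Finset.mem_filter.mp (hH i h1)).2
    have h4 := (Finset.mem_filter.mp (hH j h2)).2
    exact hij (this.symm.trans h4)
  · intro x hx0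
    have h1 : dX (E.filter (fun e => τ e.1 = τ x)) x ≠ 0 := by
      have : dX (E.filter (fun e => τ e.1 = τ x)) x = dX E x := by
        unfold dX
        congr 1
        ext e
        simp only [Finset.mem_filter]
        constructor
        · rintro ⟨⟨h1, _⟩, h3⟩; exact ⟨h1, h3⟩
        · rintro ⟨h1, h3⟩; exact ⟨⟨h1, by rw [h3]⟩, h3⟩
      rw [this]; exact hx0
    have h2 : R * q ≤ dX (univ.biUnion H) x := by
      rw [← (hcol (τ x)).2 x h1]
      unfold dX
      exact Finset.card_le_card (Finset.filter_subset_filter _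
        (Finset.subset_biUnion_of_mem H (Finset.mem_univ _)))
    have h3 : (Δ : ℝ) ≤ 2097152 * J ^ 3 * (R * q) := by
      have h4 : (θ : ℝ) / (64 * K) * (K / (4096 * J ^ 2)) ≤ R * q :=
        mul_le_mul rR2 rq2 (by positivity) (by positivity)
      have h5 : (θ : ℝ) / (64 * K) * (K / (4096 * J ^ 2)) = θ / (262144 * J ^ 2) := by
        field_simp; ring
      rw [h5] at h4
      calc (Δ : ℝ) ≤ 8 * J * θ := rθ
        _ = 2097152 * J ^ 3 * (θ / (262144 * J ^ 2)) := by field_simp; ring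
        _ ≤ 2097152 * J ^ 3 * (R * q) := mul_le_mul_of_nonneg_left h4 (by positivity)
    have h6 : Δ ≤ 2097152 * J ^ 3 * (R * q) := by exact_mod_cast h3
    exact h6.trans (Nat.mul_le_mul_left _ h2)

end Pool.Agent.helper87.PI
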