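import Mathlib
import Pool.Agent.helper87.PI.Defs
import Pool.Agent.helper87.PI.D6
import Pool.Agent.helper17.PI.D7
import Pool.Agent.helper29.PI.D1
import Pool.Agent.helper46.PI.D4

set_option autoImplicit false

namespace Pool.Agent.helper87.PI

open Finset

lemma D8_dX_le {X Y : Type} [DecidableEq X] [DecidableEq Y] {E F : Finset (X × Y)} (h : E ⊆ F)
    (x : X) : dX E x ≤ dX F x := by
  unfold dX
  exact Finset.card_le_card (Finset.filter_subset_filter _ h)

lemma D8_dY_le {X Y : Type} [DecidableEq X] [DecidableEq Y] {E F : Finset (X × Y)} (h : E ⊆ F)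
    (y : Y) : dY E y ≤ dY F y := by
  unfold dY
  exact Finset.card_le_card (Finset.filter_subset_filter _ h)

/-- one class of the cleaned graph -/
lemma D8_class {X Y : Type} [Fintype X] [Fintype Y] [DecidableEq X] [DecidableEq Y]
    (G : Finset (X × Y)) (Δ θ J i : ℕ) (hJ : 1 ≤ J) (hΔJ : Δ < 2 ^ J)
    (hbig : 100000000000 * J ^ 4 ≤ Δ) (hθ : Δ ≤ 8 * J * θ) (hθ2 : θ + 1 ≤ Δ)
    (hx : ∀ x, dX G x = 0 ∨ (θ ≤ dX G x ∧ dX G x ≤ Δ))
    (hy : ∀ y, dY G y = 0 ∨ (2 ^ i ≤ dY G y ∧ dY G y < 2 ^ (i + 1))) (hyΔ : ∀ y, dY G y ≤ Δ) :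
    ∃ H ⊆ G, Good H (2 ^ (100000000000 * J ^ 4)) ∧
      ∀ x, dX G x ≠ 0 → Δ ≤ 2097152 * J ^ 3 * dX H x := by
  have hJ3 : 1 ≤ J ^ 3 := Nat.one_le_pow _ _ (by omega)
  have hJ4 : J ^ 3 ≤ J ^ 4 := Nat.pow_le_pow_right (by omega) (by norm_num)
  by_cases hi : 5000000000 * J ^ 3 ≤ 2 ^ i
  · obtain ⟨H, hH, hG, hd⟩ := cll G Δ θ (2 ^ i) J hJ hΔJ (by nlinarith [Nat.pow_le_pow_left hJ 4, Nat.pow_le_pow_right hJ (show 1 ≤ 4 by norm_num)]) hθ hx (by
      intro y
      rcases hy y with h | h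
      · left; exact h
      · right
        refine ⟨h.1, ?_⟩
        have := h.2
        rw [pow_succ] at this
        omega) hyΔ hi
    refine ⟨H, hH, good_mono hG ?_, hd⟩
    exact Nat.pow_le_pow_right (by norm_num) (by omega)
  · push Not at hi
    obtain ⟨H, hH, hG, hd⟩ := cls G θ (10000000000 * J ^ 3) (fun x => by
        rcases hx x with h | h
        · left; exact h
        · right; exact h.1) (fun y => by
        rcases hy y with h | h
        · rw [h]; exact Nat.zero_le _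
        · have := h.2
          rw [pow_succ] at this
          omega) (by
        -- 10^10 J^3 ≤ θ
        by_contra hc
        push Not at hc
        have h1 : 8 * J * θ < 8 * J * (10000000000 * J ^ 3) :=
          Nat.mul_lt_mul_of_pos_left hc (by omega)
        have h2 : 8 * J * (10000000000 * J ^ 3) = 80000000000 * J ^ 4 := by ring
        have h3 : 0 < J ^ 4 := by positivity
        omega)
    refine ⟨H, hH, good_mono hG ?_, ?_⟩
    · have h1 : (θ + 1) ^ (10000000000 * J ^ 3) ≤ 2 ^ (10000000000 * J ^ 4) := by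
        calc (θ + 1) ^ (10000000000 * J ^ 3) ≤ (2 ^ J) ^ (10000000000 * J ^ 3) :=
              Nat.pow_le_pow_left (by omega) _
          _ = 2 ^ (10000000000 * J ^ 4) := by rw [← pow_mul]; congr 1; ring
      have h2 : (2 : ℕ) ≤ 2 ^ (10000000000 * J ^ 4) := by
        calc (2 : ℕ) = 2 ^ 1 := by norm_num
          _ ≤ _ := Nat.pow_le_pow_right (by norm_num) (by omega)
      calc (θ + 1) ^ (10000000000 * J ^ 3) + 2
          ≤ 2 ^ (10000000000 * J ^ 4) + 2 ^ (10000000000 * J ^ 4) := by omega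
        _ = 2 ^ (10000000000 * J ^ 4 + 1) := by rw [pow_succ]; ring
        _ ≤ 2 ^ (100000000000 * J ^ 4) := Nat.pow_le_pow_right (by norm_num) (by omega)
    · intro x hx0
      rw [hd x hx0]
      refine hθ.trans ?_
      have : 8 * J ≤ 2097152 * J ^ 3 := by nlinarith [Nat.pow_le_pow_right hJ (show 1 ≤ 3 by norm_num)]
      exact Nat.mul_le_mul_right _ this

theorem round {X Y : Type} [Fintype X] [Fintype Y] [DecidableEq X] [DecidableEq Y]
    (E : Finset (X × Y)) (Δ J : ℕ) (hΔJ : Δ < 2 ^ J)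
    (hbig : 100000000000 * J ^ 4 ≤ Δ) (hx : ∀ x, dX E x ≤ Δ) (hy : ∀ y, dY E y ≤ Δ) :
    ∃ F ⊆ E, Good F (2 ^ (100000000000 * J ^ 5)) ∧
      ∀ x, Δ ≤ 2 * dX E x → Δ ≤ 2097152 * J ^ 3 * dX F x := by
  rcases Nat.eq_zero_or_pos Δ with h0 | hΔ
  · subst h0
    exact ⟨∅, Finset.empty_subset _, good_mono good_empty Nat.one_le_two_pow, fun x _ => Nat.zero_le _⟩
  have hJ : 1 ≤ J := by
    rcases Nat.eq_zero_or_pos J with h | h
    · subst h; simp at hΔJ; omega
    · exact h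
  have hJ4 : J ≤ J ^ 4 := by
    calc J = J ^ 1 := by ring
      _ ≤ J ^ 4 := Nat.pow_le_pow_right hJ (by norm_num)
  set θ : ℕ := Δ / (8 * J) + 1 with hθdef
  have hθ1 : Δ ≤ 8 * J * θ := by
    have := Nat.lt_mul_div_succ Δ (show 0 < 8 * J by omega)
    rw [hθdef]; exact this.le
  have hθ3 : J * θ ≤ Δ / 8 + J := by
    rw [hθdef, mul_add, mul_one]
    have : J * (Δ / (8 * J)) ≤ Δ / 8 := by
      rw [← Nat.div_div_eq_div_mul]
      exact Nat.mul_div_le (Δ / 8) J
    omega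
  have hθ2 : θ + 1 ≤ Δ := by
    have : Δ / (8 * J) ≤ Δ / 8 := Nat.div_le_div_left (by omega) (by norm_num)
    omega
  set Eh : Finset (X × Y) := E.filter (fun e => Δ ≤ 2 * dX E e.1) with hEh
  have hEhE : Eh ⊆ E := Finset.filter_subset _ _
  obtain ⟨F, hF, hloss, hcls⟩ := clean Eh J θ (fun y => lt_of_le_of_lt ((D8_dY_le hEhE y).trans (hy y)) hΔJ)
  have hFE : F ⊆ E := hF.trans hEhE
  -- classes
  let Γ : Fin J → Finset (X × Y) := fun i =>
    F.filter (fun e => 2 ^ (i : ℕ) ≤ dY F e.2 ∧ dY F e.2 < 2 ^ ((i : ℕ) + 1))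
  have hΓF : ∀ i, Γ i ⊆ F := fun i => Finset.filter_subset _ _
  have hΓx : ∀ i x, dX (Γ i) x = (F.filter (fun e => e.1 = x ∧ 2 ^ (i : ℕ) ≤ dY F e.2 ∧
      dY F e.2 < 2 ^ ((i : ℕ) + 1))).card := by
    intro i x
    unfold dX
    congr 1
    ext e
    simp only [Γ, Finset.mem_filter]
    tauto
  have hΓy : ∀ i y, dY (Γ i) y = 0 ∨ (2 ^ (i : ℕ) ≤ dY (Γ i) y ∧ dY (Γ i) y < 2 ^ ((i : ℕ) + 1)) := by
    intro i y
    by_cases h : 2 ^ (i : ℕ) ≤ dY F y ∧ dY F y < 2 ^ ((i : ℕ) + 1)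
    · right
      have : dY (Γ i) y = dY F y := by
        unfold dY
        congr 1
        ext e
        simp only [Γ, Finset.mem_filter]
        constructor
        · rintro ⟨⟨h1, _⟩, h3⟩; exact ⟨h1, h3⟩
        · rintro ⟨h1, h3⟩
          refine ⟨⟨h1, ?_⟩, h3⟩
          rw [h3]; exact h
      rw [this]; exact h
    · left
      unfold dY
      rw [Finset.card_eq_zero, Finset.filter_eq_empty_iff]
      intro e he h3
      simp only [Γ, Finset.mem_filter] at he
      rw [h3] at he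
      exact h he.2
  have hH : ∀ i : Fin J, ∃ H ⊆ Γ i, Good H (2 ^ (100000000000 * J ^ 4)) ∧
      ∀ x, dX (Γ i) x ≠ 0 → Δ ≤ 2097152 * J ^ 3 * dX H x := by
    intro i
    refine D8_class (Γ i) Δ θ J i hJ hΔJ hbig hθ1 hθ2 ?_ (hΓy i) ?_
    · intro x
      rcases hcls i i.2 x with h | h
      · left; rw [hΓx]; exact h
      · right
        refine ⟨by rw [hΓx]; exact h, ((D8_dX_le (hΓF i) x).trans (D8_dX_le hFE x)).trans (hx x)⟩
    · intro y
      exact ((D8_dY_le (hΓF i) y).trans (D8_dY_le hFE y)).trans (hy y)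
  choose H hHΓ hHG hHx using hH
  refine ⟨univ.biUnion H, ?_, ?_, ?_⟩
  · intro e he
    rw [Finset.mem_biUnion] at he
    obtain ⟨i, _, hi⟩ := he
    exact hFE (hΓF i (hHΓ i hi))
  · have h1 := good_biUnion H (2 ^ (100000000000 * J ^ 4)) hHG (by
      intro i j hij
      rw [Finset.disjoint_left]
      intro e h1 h2
      have h3 := (Finset.mem_filter.mp (hHΓ i h1)).2
      have h4 := (Finset.mem_filter.mp (hHΓ j h2)).2
      have h5 : (i : ℕ) < (j : ℕ) + 1 := (Nat.pow_lt_pow_iff_right (by norm_num : 1 < 2)).mp (lt_of_le_of_lt h3.1 h4.2)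
      have h6 : (j : ℕ) < (i : ℕ) + 1 := (Nat.pow_lt_pow_iff_right (by norm_num : 1 < 2)).mp (lt_of_le_of_lt h4.1 h3.2)
      exact hij (Fin.ext (by omega)))
    rw [← pow_mul] at h1
    have h2 : 100000000000 * J ^ 4 * J = 100000000000 * J ^ 5 := by ring
    rw [h2] at h1
    exact h1
  · intro x hx0
    have h1 : dX Eh x = dX E x := by
      unfold dX
      congr 1
      ext e
      simp only [hEh, Finset.mem_filter]
      constructor
      · rintro ⟨⟨h1, _⟩, h3⟩; exact ⟨h1, h3⟩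
      · rintro ⟨h1, h3⟩
        refine ⟨⟨h1, ?_⟩, h3⟩
        rw [h3]; exact hx0
    have h2 := hloss x
    rw [h1] at h2
    have h3 : 0 < dX F x := by omega
    obtain ⟨e, he⟩ := Finset.card_pos.mp h3
    rw [Finset.mem_filter] at he
    -- class of e.2
    have hd1 : 0 < dY F e.2 := by
      unfold dY
      exact Finset.card_pos.mpr ⟨e, Finset.mem_filter.mpr ⟨he.1, rfl⟩⟩
    have hd2 : dY F e.2 < 2 ^ J := lt_of_le_of_lt ((D8_dY_le hFE e.2).trans (hy e.2)) hΔJ
    have hi1 : 2 ^ (Nat.log 2 (dY F e.2)) ≤ dY F e.2 := Nat.pow_log_le_self 2 (by omega)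
    have hi2 : dY F e.2 < 2 ^ (Nat.log 2 (dY F e.2) + 1) := Nat.lt_pow_succ_log_self (by norm_num) _
    have hi3 : Nat.log 2 (dY F e.2) < J :=
      (Nat.pow_lt_pow_iff_right (by norm_num : 1 < 2)).mp (lt_of_le_of_lt hi1 hd2)
    set i : Fin J := ⟨Nat.log 2 (dY F e.2), hi3⟩ with hidef
    have h4 : dX (Γ i) x ≠ 0 := by
      unfold dX
      refine Finset.card_ne_zero_of_mem (a := e) ?_
      simp only [Γ, Finset.mem_filter]
      exact ⟨⟨he.1, hi1, hi2⟩, he.2⟩
    refine (hHx i x h4).trans (Nat.mul_le_mul_left _ ?_)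
    exact D8_dX_le (Finset.subset_biUnion_of_mem H (Finset.mem_univ i)) x

end Pool.Agent.helper87.PI
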