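import Mathlib
import Pool.Agent.helper87.PI.Defs
import Pool.Agent.helper17.PI.E5
import Pool.Agent.helper23.PI.E2

set_option autoImplicit false

namespace Pool.Agent.helper87.PI

open Finset

theorem final :
    ∃ C : ℝ, ∀ n m : ℕ, ∀ s t : Fin m → Fin n, (∀ i, s i ≠ t i) →
      ∀ Δ : ℕ, 2 ≤ Δ →
        (∀ v : Fin n, (Finset.univ.filter (fun i : Fin m => s i = v ∨ t i = v)).card ≤ Δ) →
        ∃ c : Fin m → ℕ,
          (∀ i j : Fin m, i ≠ j →
              (s i = s j ∨ s i = t j ∨ t i = s j ∨ t i = t j) → c i ≠ c j) ∧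
          (((Finset.univ : Finset (Fin n)).image
              (fun v => (Finset.univ.filter
                (fun i : Fin m => s i = v ∨ t i = v)).image c)).card : ℝ)
            ≤ Real.exp (C * Real.log Δ ^ 11) := by
  obtain ⟨C0, hC⟩ := quasi
  refine ⟨Real.log 2 * C0 * (3 / Real.log 2) ^ 11, ?_⟩
  intro n m s t hst Δ hΔ hdeg
  set J : ℕ := Nat.log 2 Δ + 1 with hJ
  have hΔJ : Δ < 2 ^ J := Nat.lt_pow_succ_log_self (by norm_num) Δ
  obtain ⟨c, hc1, hc2⟩ := multi (fun J => 2 ^ (C0 * (J + 1) ^ 9)) (fun J => Nat.one_le_two_pow)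
    (by
      intro a b hab
      refine Nat.pow_le_pow_right (by norm_num) ?_
      exact Nat.mul_le_mul_left _ (Nat.pow_le_pow_left (by omega) 9))
    (fun J X Y _ _ _ _ E h1 h2 => hC J X Y E h1 h2)
    J (Fin m) (Fin n) (univ : Finset (Fin m)) s t (fun i _ => hst i)
    (fun v => lt_of_le_of_lt (hdeg v) hΔJ)
  refine ⟨c, fun i j hij h => hc1 i (Finset.mem_univ i) j (Finset.mem_univ j) hij h, ?_⟩
  have hlog2 : 0 < Real.log 2 := Real.log_pos (by norm_num)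
  have hΔr : (2 : ℝ) ≤ Δ := by exact_mod_cast hΔ
  have hlogΔ : Real.log 2 ≤ Real.log Δ := Real.log_le_log (by norm_num) hΔr
  -- (J + 1) ≤ 3 log Δ / log 2
  have h1 : ((J : ℝ) + 1) ≤ 3 / Real.log 2 * Real.log Δ := by
    have h2 : ((Nat.log 2 Δ : ℕ) : ℝ) * Real.log 2 ≤ Real.log Δ := by
      have h3 : 2 ^ (Nat.log 2 Δ) ≤ Δ := Nat.pow_log_le_self 2 (by omega)
      have h4 : ((2 : ℝ) ^ (Nat.log 2 Δ)) ≤ Δ := by exact_mod_cast h3
      have h5 := Real.log_le_log (by positivity) h4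
      rwa [Real.log_pow] at h5
    have h6 : ((J : ℝ) + 1) * Real.log 2 ≤ 3 * Real.log Δ := by
      rw [hJ]; push_cast; nlinarith
    rw [div_mul_eq_mul_div, le_div_iff₀ hlog2]
    exact h6
  have h7 : (2 ^ (C0 * (J + 1) ^ 9)) ^ (J ^ 2) ≤ 2 ^ (C0 * (J + 1) ^ 11) := by
    rw [← pow_mul]
    refine Nat.pow_le_pow_right (by norm_num) ?_
    calc C0 * (J + 1) ^ 9 * J ^ 2 ≤ C0 * (J + 1) ^ 9 * (J + 1) ^ 2 :=
          Nat.mul_le_mul_left _ (Nat.pow_le_pow_left (by omega) 2)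
      _ = C0 * (J + 1) ^ 11 := by ring
  have h8 : (((Finset.univ : Finset (Fin n)).image
              (fun v => (Finset.univ.filter
                (fun i : Fin m => s i = v ∨ t i = v)).image c)).card : ℝ) ≤
      (2 : ℝ) ^ (C0 * (J + 1) ^ 11) := by
    exact_mod_cast hc2.trans h7
  refine h8.trans ?_
  have h9 : (2 : ℝ) ^ (C0 * (J + 1) ^ 11) = Real.exp (Real.log 2 * C0 * ((J : ℝ) + 1) ^ 11) := by
    rw [← Real.exp_log (show (0 : ℝ) < 2 ^ (C0 * (J + 1) ^ 11) by positivity), Real.log_pow]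
    congr 1
    push_cast; ring
  rw [h9]
  apply Real.exp_le_exp.mpr
  have h10 : ((J : ℝ) + 1) ^ 11 ≤ (3 / Real.log 2 * Real.log Δ) ^ 11 :=
    pow_le_pow_left₀ (by positivity) h1 11
  calc Real.log 2 * C0 * ((J : ℝ) + 1) ^ 11
      ≤ Real.log 2 * C0 * (3 / Real.log 2 * Real.log Δ) ^ 11 :=
        mul_le_mul_of_nonneg_left h10 (by positivity)
    _ = Real.log 2 * C0 * (3 / Real.log 2) ^ 11 * Real.log Δ ^ 11 := by rw [mul_pow]; ring

end Pool.Agent.helper87.PI
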